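import Mathlib

set_option autoImplicit false

namespace Pool.Agent.Results.MP_5f8894_co.AlmostAll

open SimpleGraph Filter Topology

/-- `H` is an `r`-ASC graph: connected, of radius `r`, with exactly two non-central vertices. -/
def ASC {W : Type} (r : ℕ) (H : SimpleGraph W) : Prop :=
  H.Connected ∧ H.radius = r ∧ {v | H.eccent v ≠ H.radius}.ncard = 2

/-- `G` is an induced subgraph of an `r`-ASC graph with `k` more vertices. -/
def Emb {V : Type} [Fintype V] (r : ℕ) (G : SimpleGraph V) (k : ℕ) : Prop :=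
  ∃ (W : Type) (_ : Fintype W) (H : SimpleGraph W),
    Fintype.card W = Fintype.card V + k ∧ ASC r H ∧ Nonempty (G ↪g H)

/-- The `r`-ASC index of `G` equals `k`. -/
def Theta {V : Type} [Fintype V] (r : ℕ) (G : SimpleGraph V) (k : ℕ) : Prop :=
  IsLeast {j | Emb r G j} k

/-- The proportion of labelled graphs on `n` vertices whose `3`-ASC index equals `k`. -/
noncomputable def prob (k n : ℕ) : ℝ :=
  (Set.ncard {G : SimpleGraph (Fin n) | Theta 3 G k} : ℝ) / Nat.card (SimpleGraph (Fin n))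

lemma lip {W : Type} (H : SimpleGraph W) (L : W → ℕ)
    (h : ∀ u v, H.Adj u v → L v ≤ L u + 1) {u v : W} (p : H.Walk u v) :
    L v ≤ L u + p.length := by
  induction p with
  | nil => simp
  | cons hadj p ih =>
    have := h _ _ hadj
    simp only [Walk.length_cons]
    omega

lemma lip' {W : Type} (H : SimpleGraph W) (L : W → ℕ)
    (h : ∀ u v, H.Adj u v → L v ≤ L u + 1) (u v : W) (h0 : L u = 0) (m : ℕ) (hm : m ≤ L v) :
    (m : ℕ∞) ≤ H.edist u v := by
  unfold SimpleGraph.edist
  refine le_iInf fun p => ?_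
  have := lip H L h p
  exact_mod_cast (by omega : m ≤ p.length)

lemma e1 {W : Type} {H : SimpleGraph W} {u v : W} (h : H.Adj u v ∨ u = v) : H.edist u v ≤ 1 :=
  edist_le_one_iff_adj_or_eq.2 h

lemma tr {W : Type} {H : SimpleGraph W} {u w : W} (v : W) {a b : ℕ∞} (h1 : H.edist u v ≤ a)
    (h2 : H.edist v w ≤ b) : H.edist u w ≤ a + b :=
  (H.edist_triangle (v := v)).trans (add_le_add h1 h2)

def D2 {V : Type} (G : SimpleGraph V) : Prop :=
  ∀ a b, ∃ w, (G.Adj a w ∨ a = w) ∧ (G.Adj w b ∨ w = b)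

lemma lower {V W : Type} [Fintype V] [Fintype W] [Nonempty V] (G : SimpleGraph V) (hG : D2 G)
    (H : SimpleGraph W) (f : G ↪g H) (hc : H.Connected) (hr : H.radius = (3 : ℕ)) (k : ℕ)
    (hk : Fintype.card W = Fintype.card V + k) : 3 ≤ k := by
  classical
  by_contra hlt
  have hthree : ∀ p q r : W, p ∉ Set.range f → q ∉ Set.range f → r ∉ Set.range f →
      p ≠ q → r = p ∨ r = q := by
    intro p q r hp hq hr' hpq
    by_contra hne
    push Not at hne
    have hdis : Disjoint (Finset.univ.image f) ({p, q, r} : Finset W) := by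
      rw [Finset.disjoint_left]
      intro x hx hx'
      simp only [Finset.mem_image, Finset.mem_univ, true_and] at hx
      simp only [Finset.mem_insert, Finset.mem_singleton] at hx'
      rcases hx' with rfl | rfl | rfl
      · exact hp hx
      · exact hq hx
      · exact hr' hx
    have h1 : (Finset.univ.image f).card = Fintype.card V := by
      rw [Finset.card_image_of_injective _ f.injective]; simp
    have h2 : ({p, q, r} : Finset W).card = 3 := by
      rw [Finset.card_eq_three]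
      exact ⟨p, q, r, hpq, hne.1.symm, hne.2.symm, rfl⟩
    have h3 := Finset.card_le_univ (Finset.univ.image f ∪ ({p, q, r} : Finset W))
    rw [Finset.card_union_of_disjoint hdis] at h3
    omega
  have hf1 : ∀ a b, (G.Adj a b ∨ a = b) → H.edist (f a) (f b) ≤ 1 := by
    intro a b h
    rcases h with h | h
    · exact e1 (Or.inl (f.map_adj_iff.2 h))
    · exact e1 (Or.inr (by rw [h]))
  have hVV : ∀ a b, H.edist (f a) (f b) ≤ 1 + 1 := by
    intro a b
    obtain ⟨w, h1, h2⟩ := hG a b
    exact tr (f w) (hf1 _ _ h1) (hf1 _ _ h2)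
  have key : ∃ a, ∀ p, p ∉ Set.range f → H.edist (f a) p ≤ 1 + 1 := by
    obtain ⟨a0⟩ := ‹Nonempty V›
    by_cases hA : ∃ p, p ∉ Set.range f ∧ ∀ a, ¬ H.Adj p (f a)
    · obtain ⟨p, hp, hpa⟩ := hA
      obtain ⟨w⟩ := hc.preconnected p (f a0)
      obtain ⟨d, -, hd1, hd2⟩ := w.exists_boundary_dart (Set.range f)ᶜ hp (by simp)
      obtain ⟨d', -, hd1', hd2'⟩ := w.exists_boundary_dart {p} rfl (by
        intro h; exact hp ⟨a0, h⟩)
      simp only [Set.mem_compl_iff, not_not] at hd1 hd2
      obtain ⟨a, ha⟩ := hd2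
      have hadj := d.adj
      have hadj' := d'.adj
      rw [Set.mem_singleton_iff] at hd1' hd2'
      rw [hd1'] at hadj'
      rw [← ha] at hadj
      have hpq : p ≠ d.fst := by
        intro h; rw [← h] at hadj; exact hpa a hadj
      have hr2 : d'.snd ∉ Set.range f := by
        rintro ⟨b, hb⟩; rw [← hb] at hadj'; exact hpa b hadj'
      have hq : d'.snd = d.fst := by
        rcases hthree p d.fst d'.snd hp hd1 hr2 hpq with h | h
        · exact absurd h hd2'
        · exact h
      rw [hq] at hadj'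
      refine ⟨a, fun r hr' => ?_⟩
      rcases hthree p d.fst r hp hd1 hr' hpq with h | h
      · rw [h]; exact tr d.fst (e1 (Or.inl hadj.symm)) (e1 (Or.inl hadj'.symm))
      · rw [h]; exact tr d.fst (e1 (Or.inl hadj.symm)) (e1 (Or.inr rfl))
    · push Not at hA
      by_cases h0 : ∃ p, p ∉ Set.range f
      · obtain ⟨p, hp⟩ := h0
        obtain ⟨a, ha⟩ := hA p hp
        by_cases h1 : ∃ q, q ∉ Set.range f ∧ p ≠ q
        · obtain ⟨q, hq, hpq⟩ := h1
          obtain ⟨b, hb⟩ := hA q hq
          obtain ⟨w, h1, h2⟩ := hG a b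
          refine ⟨w, fun r hr' => ?_⟩
          rcases hthree p q r hp hq hr' hpq with h | h
          · rw [h]
            refine tr (f a) ?_ (e1 (Or.inl ha.symm))
            rw [edist_comm]; exact hf1 _ _ h1
          · rw [h]
            exact tr (f b) (hf1 _ _ h2) (e1 (Or.inl hb.symm))
        · push Not at h1
          refine ⟨a, fun r hr' => ?_⟩
          rw [← h1 r hr']
          exact tr p (e1 (Or.inl ha.symm)) (e1 (Or.inr rfl))
      · push Not at h0
        exact ⟨a0, fun r hr' => absurd (h0 r) hr'⟩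
  obtain ⟨a, ha⟩ := key
  have h2 : H.eccent (f a) ≤ 1 + 1 := by
    rw [eccent_le_iff]
    intro v
    by_cases hv : v ∈ Set.range f
    · obtain ⟨b, rfl⟩ := hv
      exact hVV a b
    · exact ha v hv
  have h3 := (H.radius_le_eccent (u := f a)).trans h2
  rw [hr] at h3
  exact absurd h3 (by decide)

def Bs {V : Type} (G : SimpleGraph V) (c g a : V) : Prop :=
  a ≠ c ∧ a ≠ g ∧ ¬ G.Adj a c ∧ ¬ G.Adj a g

def adj {V : Type} (G : SimpleGraph V) (c g : V) : V ⊕ Fin 3 → V ⊕ Fin 3 → Prop
  | .inl a, .inl b => G.Adj a b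
  | .inl a, .inr i => (i = 2 ∧ a = c) ∨ (i = 1 ∧ Bs G c g a)
  | .inr i, .inl a => (i = 2 ∧ a = c) ∨ (i = 1 ∧ Bs G c g a)
  | .inr i, .inr j => (i = 0 ∧ j ≠ 0) ∨ (j = 0 ∧ i ≠ 0)

def ext {V : Type} (G : SimpleGraph V) (c g : V) : SimpleGraph (V ⊕ Fin 3) where
  Adj := adj G c g
  symm := ⟨by
    rintro (a | i) (b | j) h
    · exact G.adj_symm h
    · exact h
    · exact h
    · exact Or.symm h⟩
  loopless := ⟨by
    rintro (a | i) h
    · exact G.irrefl h
    · rcases h with h | h <;> exact h.2 h.1⟩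

open Classical in
noncomputable def Lx {V : Type} (G : SimpleGraph V) (c g : V) : V ⊕ Fin 3 → ℕ
  | .inl a => if a = g then 4 else if a = c ∨ Bs G c g a then 2 else 3
  | .inr i => if i = 0 then 0 else 1

open Classical in
noncomputable def Lz {V : Type} (G : SimpleGraph V) (c g : V) : V ⊕ Fin 3 → ℕ
  | .inl a => if a = c then 1 else if Bs G c g a then 3 else 2
  | .inr i => if i = 0 then 1 else if i = 1 then 2 else 0

open Classical in
noncomputable def Lc {V : Type} (G : SimpleGraph V) (c g : V) : V ⊕ Fin 3 → ℕ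
  | .inl a => if a = c then 0 else if Bs G c g a then 2 else 1
  | .inr i => if i = 0 then 2 else if i = 1 then 3 else 1

lemma lipx {V : Type} (G : SimpleGraph V) (c g : V) (hcg : c ≠ g) (hn : ¬ G.Adj c g) :
    ∀ u v, (ext G c g).Adj u v → Lx G c g v ≤ Lx G c g u + 1 := by
  rintro (a | i) (b | j) h
  · change G.Adj a b at h
    simp only [Lx]
    split_ifs with h1 h2 h3 h4 h5 h6 h7 h8 <;> try omega
    subst h1
    rcases h3 with h3 | h3
    · subst h3; exact absurd h hn
    · exact absurd h h3.2.2.2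
  · simp only [Lx]
    split_ifs <;> omega
  · change (i = 2 ∧ b = c) ∨ (i = 1 ∧ Bs G c g b) at h
    rcases h with ⟨rfl, rfl⟩ | ⟨rfl, h⟩
    · simp [Lx, hcg]
    · simp [Lx, h, h.2.1]
  · simp only [Lx]
    split_ifs <;> omega

lemma lipz {V : Type} (G : SimpleGraph V) (c g : V) :
    ∀ u v, (ext G c g).Adj u v → Lz G c g v ≤ Lz G c g u + 1 := by
  rintro (a | i) (b | j) h
  · change G.Adj a b at h
    simp only [Lz]
    split_ifs with h1 h2 h3 h4 h5 h6 h7 h8 <;> try omega
    subst h5
    exact absurd h.symm h4.2.2.1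
  · simp only [Lz]
    split_ifs <;> omega
  · change (i = 2 ∧ b = c) ∨ (i = 1 ∧ Bs G c g b) at h
    rcases h with ⟨rfl, rfl⟩ | ⟨rfl, h⟩
    · simp [Lz]
    · simp [Lz, h, h.1]
  · change (i = 0 ∧ j ≠ 0) ∨ (j = 0 ∧ i ≠ 0) at h
    simp only [Lz]
    split_ifs <;> omega

lemma lipc {V : Type} (G : SimpleGraph V) (c g : V) :
    ∀ u v, (ext G c g).Adj u v → Lc G c g v ≤ Lc G c g u + 1 := by
  rintro (a | i) (b | j) h
  · change G.Adj a b at h
    simp only [Lc]
    split_ifs with h1 h2 h3 h4 h5 h6 h7 h8 <;> try omega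
    subst h5
    exact absurd h.symm h4.2.2.1
  · change (j = 2 ∧ a = c) ∨ (j = 1 ∧ Bs G c g a) at h
    rcases h with ⟨rfl, rfl⟩ | ⟨rfl, h⟩
    · simp [Lc]
    · simp [Lc, h, h.1]
  · simp only [Lc]
    split_ifs <;> omega
  · change (i = 0 ∧ j ≠ 0) ∨ (j = 0 ∧ i ≠ 0) at h
    simp only [Lc]
    split_ifs <;> omega

lemma upper {V : Type} [Fintype V] (G : SimpleGraph V) (hG : D2 G) (c g : V) (hcg : c ≠ g)
    (hn : ¬ G.Adj c g) (hB : ∀ a, a ≠ c → a ≠ g → ∃ b, Bs G c g b ∧ G.Adj a b) :
    Emb 3 G 3 := by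
  classical
  set H := ext G c g with hH
  have hf1 : ∀ a b, (G.Adj a b ∨ a = b) → H.edist (.inl a) (.inl b) ≤ 1 := by
    intro a b h
    rcases h with h | h
    · exact e1 (Or.inl h)
    · exact e1 (Or.inr (by rw [h]))
  have hVV : ∀ a b, H.edist (.inl a) (.inl b) ≤ 1 + 1 := by
    intro a b
    obtain ⟨w, h1, h2⟩ := hG a b
    exact tr (.inl w) (hf1 _ _ h1) (hf1 _ _ h2)
  obtain ⟨b0, hb0⟩ : ∃ b, Bs G c g b := by
    obtain ⟨w, h1, h2⟩ := hG c g
    have hw1 : w ≠ c := by
      rintro rfl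
      rcases h2 with h2 | h2
      · exact hn h2
      · exact hcg h2
    have hw2 : w ≠ g := by
      rintro rfl
      rcases h1 with h1 | h1
      · exact hn h1
      · exact hcg h1
    obtain ⟨b, hb, -⟩ := hB w hw1 hw2
    exact ⟨b, hb⟩
  have hby : ∀ b, Bs G c g b → H.edist (.inl b) (.inr 1) ≤ 1 := fun b hb =>
    e1 (Or.inl (Or.inr ⟨rfl, hb⟩))
  have hcz : H.edist (.inl c) (.inr 2) ≤ 1 := e1 (Or.inl (Or.inl ⟨rfl, rfl⟩))
  have hix : ∀ i : Fin 3, H.edist (.inr i) (.inr 0) ≤ 1 := by
    intro i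
    by_cases hi : i = 0
    · exact e1 (Or.inr (by rw [hi]))
    · exact e1 (Or.inl (Or.inr ⟨rfl, hi⟩))
  have h3 : (1 + 1 + 1 : ℕ∞) = 3 := by decide
  have h23 : (1 + 1 : ℕ∞) ≤ 3 := by decide
  have hij : ∀ i j : Fin 3, H.edist (.inr i) (.inr j) ≤ 3 := fun i j =>
    (tr (.inr 0) (hix i) (by rw [edist_comm]; exact hix j)).trans h23
  have hVy : ∀ a, H.edist (.inl a) (.inr 1) ≤ 3 := fun a =>
    (tr (.inl b0) (hVV a b0) (hby b0 hb0)).trans h3.le
  have hVz : ∀ a, H.edist (.inl a) (.inr 2) ≤ 3 := fun a =>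
    (tr (.inl c) (hVV a c) hcz).trans h3.le
  have hVx : ∀ a, a ≠ g → H.edist (.inl a) (.inr 0) ≤ 3 := by
    intro a ha
    by_cases hac : a = c
    · rw [hac]; exact (tr (.inr 2) hcz (hix 2)).trans h23
    · obtain ⟨b, hb, hab⟩ := hB a hac ha
      exact (tr (.inr 1) (tr (.inl b) (hf1 _ _ (Or.inl hab)) (hby b hb)) (hix 1)).trans h3.le
  have up : ∀ v, v ≠ .inr 0 → v ≠ .inl g → H.eccent v ≤ 3 := by
    rintro (a | i) h1 h2
    · rw [eccent_le_iff]
      rintro (b | j)
      · exact (hVV a b).trans h23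
      · fin_cases j
        · exact hVx a (fun h => h2 (by rw [h]))
        · exact hVy a
        · exact hVz a
    · rw [eccent_le_iff]
      rintro (b | j)
      · rw [edist_comm]
        fin_cases i
        · exact absurd rfl h1
        · exact hVy b
        · exact hVz b
      · exact hij i j
  have hxg : ((4 : ℕ) : ℕ∞) ≤ H.edist (.inr 0) (.inl g) :=
    lip' H (Lx G c g) (lipx G c g hcg hn) _ _ (by simp [Lx]) 4 (by simp [Lx])
  have hcy : ((3 : ℕ) : ℕ∞) ≤ H.edist (.inl c) (.inr 1) :=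
    lip' H (Lc G c g) (lipc G c g) _ _ (by simp [Lc]) 3 (by simp [Lc])
  have hzb : ∀ b, Bs G c g b → ((3 : ℕ) : ℕ∞) ≤ H.edist (.inr 2) (.inl b) := fun b hb =>
    lip' H (Lz G c g) (lipz G c g) _ _ (by simp [Lz]) 3 (by simp [Lz, hb, hb.1])
  have hxa : ∀ a, a ≠ c → ¬ Bs G c g a → ((3 : ℕ) : ℕ∞) ≤ H.edist (.inr 0) (.inl a) :=
    fun a h1 h2 => lip' H (Lx G c g) (lipx G c g hcg hn) _ _ (by simp [Lx]) 3 (by
      simp only [Lx, h1, h2, or_self, if_false]; split_ifs <;> omega)
  have h34 : ((3 : ℕ) : ℕ∞) < ((4 : ℕ) : ℕ∞) := by decide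
  have lo : ∀ v, ((3 : ℕ) : ℕ∞) ≤ H.eccent v := by
    rintro (a | i)
    · by_cases hac : a = c
      · rw [hac]; exact hcy.trans edist_le_eccent
      · by_cases hb : Bs G c g a
        · have := hzb a hb
          rw [edist_comm] at this
          exact this.trans edist_le_eccent
        · have := hxa a hac hb
          rw [edist_comm] at this
          exact this.trans edist_le_eccent
    · fin_cases i
      · exact h34.le.trans (hxg.trans edist_le_eccent)
      · rw [edist_comm] at hcy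
        exact hcy.trans edist_le_eccent
      · exact (hzb b0 hb0).trans edist_le_eccent
  have hc3 : H.eccent (.inl c) ≤ 3 := up _ (by simp) (by simpa using hcg)
  have hrad : H.radius = ((3 : ℕ) : ℕ∞) := by
    apply le_antisymm
    · exact (H.radius_le_eccent (u := .inl c)).trans hc3
    · exact le_iInf lo
  refine ⟨V ⊕ Fin 3, inferInstance, H, by simp, ⟨?_, hrad, ?_⟩, ⟨⟨⟨Sum.inl, Sum.inl_injective⟩,
    Iff.rfl⟩⟩⟩
  · rw [connected_iff_exists_forall_reachable]
    refine ⟨.inl c, fun w => reachable_of_edist_ne_top ?_⟩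
    exact ne_top_of_le_ne_top (by decide) (edist_le_eccent.trans hc3)
  · have : {v | H.eccent v ≠ H.radius} = {Sum.inr 0, Sum.inl g} := by
      ext v
      simp only [Set.mem_ofPred_eq, Set.mem_insert_iff, Set.mem_singleton_iff, hrad]
      constructor
      · intro h
        by_contra hne
        push Not at hne
        exact h (le_antisymm (up v hne.1 hne.2) (lo v))
      · rintro (rfl | rfl)
        · exact (h34.trans_le (hxg.trans edist_le_eccent)).ne'
        · rw [edist_comm] at hxg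
          exact (h34.trans_le (hxg.trans edist_le_eccent)).ne'
    rw [this]
    exact Set.ncard_pair (by simp)

def Ext {V : Type} (G : SimpleGraph V) : Prop :=
  ∀ e : Fin 3 → V, Function.Injective e → ∀ s : Fin 3 → Bool,
    ∃ w, w ∉ Set.range e ∧ ∀ i, (G.Adj w (e i) ↔ s i = true)

lemma inj3 {V : Type} {a b c : V} (h1 : a ≠ b) (h2 : a ≠ c) (h3 : b ≠ c) :
    Function.Injective ![a, b, c] := by
  intro i j h
  fin_cases i <;> fin_cases j <;> simp_all [eq_comm]

lemma theta_of_ext {n : ℕ} (hn : 3 ≤ n) (G : SimpleGraph (Fin n)) (hG : Ext G) :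
    Theta 3 G 3 := by
  have third : ∀ a b : Fin n, ∃ c, a ≠ c ∧ b ≠ c := by
    intro a b
    by_contra hne
    push Not at hne
    have h1 : (Finset.univ : Finset (Fin n)) ⊆ {a, b} := by
      intro x _
      by_cases hx : a = x
      · simp [hx]
      · simp [hne x hx]
    have h2 := Finset.card_le_card h1
    have h3 : ({a, b} : Finset (Fin n)).card ≤ 2 := Finset.card_le_two
    simp at h2
    omega
  have hD : D2 G := by
    intro a b
    by_cases hab : a = b
    · exact ⟨a, Or.inr rfl, Or.inr hab⟩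
    · obtain ⟨c, h1, h2⟩ := third a b
      obtain ⟨w, -, hw⟩ := hG _ (inj3 hab h1 h2) (fun _ => true)
      exact ⟨w, Or.inl ((hw 0).2 rfl).symm, Or.inl ((hw 1).2 rfl)⟩
  have : Nonempty (Fin n) := ⟨⟨0, by omega⟩⟩
  obtain ⟨c, g, hcg, hn⟩ : ∃ c g : Fin n, c ≠ g ∧ ¬ G.Adj c g := by
    obtain ⟨a⟩ := ‹Nonempty (Fin n)›
    obtain ⟨b, hab, -⟩ := third a a
    obtain ⟨c, h1, h2⟩ := third a b
    obtain ⟨w, hw1, hw⟩ := hG _ (inj3 hab h1 h2) (fun _ => false)
    refine ⟨w, a, fun h => hw1 ⟨0, h.symm⟩, fun h => ?_⟩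
    simpa using (hw 0).1 h
  constructor
  · refine upper G hD c g hcg hn fun a h1 h2 => ?_
    obtain ⟨w, hw1, hw⟩ := hG _ (inj3 h1 h2 hcg) ![true, false, false]
    refine ⟨w, ⟨fun h => hw1 ⟨1, h.symm⟩, fun h => hw1 ⟨2, h.symm⟩, fun h => ?_, fun h => ?_⟩,
      ((hw 0).2 rfl).symm⟩
    · simpa using (hw 1).1 h
    · simpa using (hw 2).1 h
  · rintro k ⟨W, _, H, hk, ⟨hc, hr, -⟩, ⟨f⟩⟩
    exact lower G hD H f hc hr k hk

def tog {V : Type} (e : Fin 3 → V) (t : V → Fin 3 → Bool) : SimpleGraph V where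
  Adj u v := (u ∉ Set.range e ∧ ∃ i, v = e i ∧ t u i = true) ∨
    (v ∉ Set.range e ∧ ∃ i, u = e i ∧ t v i = true)
  symm := ⟨fun _ _ h => Or.symm h⟩
  loopless := ⟨by
    rintro u (⟨h, i, hi, -⟩ | ⟨h, i, hi, -⟩) <;> exact h ⟨i, hi.symm⟩⟩

lemma tog_adj {V : Type} {e : Fin 3 → V} (he : Function.Injective e) (t : V → Fin 3 → Bool)
    {w : V} (hw : w ∉ Set.range e) (i : Fin 3) : (tog e t).Adj w (e i) ↔ t w i = true := by
  constructor
  · rintro (⟨-, j, hj, h⟩ | ⟨h, -⟩)
    · rw [he hj]; exact h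
    · exact absurd ⟨i, rfl⟩ h
  · intro h
    exact Or.inl ⟨hw, i, rfl, h⟩

def Bad {V : Type} (e : Fin 3 → V) (s : Fin 3 → Bool) (G : SimpleGraph V) : Prop :=
  ∀ w, w ∉ Set.range e → ¬ ∀ i, (G.Adj w (e i) ↔ s i = true)

open Classical in
lemma count_t {n : ℕ} {e : Fin 3 → Fin n} (he : Function.Injective e) (s : Fin 3 → Bool)
    (G : SimpleGraph (Fin n)) :
    (Finset.univ.filter fun t : Fin n → Fin 3 → Bool => Bad e s (symmDiff G (tog e t))).card
      ≤ 512 * 7 ^ n := by
  let F : Fin n → Finset (Fin 3 → Bool) := fun w =>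
    if w ∈ Set.range e then Finset.univ else
      Finset.univ.erase fun i => xor (decide (G.Adj w (e i))) (s i)
  have h1 : (Finset.univ.filter fun t : Fin n → Fin 3 → Bool => Bad e s (symmDiff G (tog e t)))
      ⊆ Fintype.piFinset F := by
    intro t ht
    rw [Finset.mem_filter] at ht
    rw [Fintype.mem_piFinset]
    intro w
    by_cases hw : w ∈ Set.range e
    · simp only [F, hw, if_true, Finset.mem_univ]
    · simp only [F, hw, if_false, Finset.mem_erase, Finset.mem_univ, and_true]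
      intro h
      apply ht.2 w hw
      intro i
      have h' := congrFun h i
      simp only [symmDiff_def, sup_adj, sdiff_adj, tog_adj he t hw, h']
      by_cases hg : G.Adj w (e i) <;> cases s i <;> simp [hg]
  refine (Finset.card_le_card h1).trans ?_
  rw [Fintype.card_piFinset]
  have h2 : ∀ w ∈ (Finset.univ : Finset (Fin n)), (F w).card ≤
      (if w ∈ Finset.univ.image e then 8 else 1) * 7 := by
    intro w _
    by_cases hw : w ∈ Set.range e
    · have : w ∈ Finset.univ.image e := by simpa using hw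
      simp only [F, hw, this, if_true]
      simp
    · have : w ∉ Finset.univ.image e := by simpa using hw
      simp only [F, hw, this, if_false]
      simp
  refine (Finset.prod_le_prod' h2).trans ?_
  rw [Finset.prod_mul_distrib, Finset.prod_ite_mem, Finset.univ_inter, Finset.prod_const,
    Finset.prod_const, Finset.card_image_of_injective _ he]
  simp

open Classical in
lemma count_bad {n : ℕ} {e : Fin 3 → Fin n} (he : Function.Injective e) (s : Fin 3 → Bool) :
    (Finset.univ.filter fun G : SimpleGraph (Fin n) => Bad e s G).card * 8 ^ n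
      ≤ Fintype.card (SimpleGraph (Fin n)) * (512 * 7 ^ n) := by
  have h1 : ∀ t : Fin n → Fin 3 → Bool,
      (Finset.univ.filter fun G : SimpleGraph (Fin n) => Bad e s G).card =
      (Finset.univ.filter fun G : SimpleGraph (Fin n) => Bad e s (symmDiff G (tog e t))).card := by
    intro t
    refine Finset.card_bij' (fun G _ => symmDiff G (tog e t)) (fun G _ => symmDiff G (tog e t))
      ?_ ?_ ?_ ?_
    · intro G hG
      simpa [symmDiff_symmDiff_cancel_right] using hG
    · intro G hG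
      simpa using hG
    · intro G _
      exact symmDiff_symmDiff_cancel_right _ _
    · intro G _
      exact symmDiff_symmDiff_cancel_right _ _
  have h2 : (Finset.univ.filter fun G : SimpleGraph (Fin n) => Bad e s G).card * 8 ^ n =
      ∑ t : Fin n → Fin 3 → Bool, (Finset.univ.filter fun G : SimpleGraph (Fin n) =>
        Bad e s (symmDiff G (tog e t))).card := by
    rw [← Finset.sum_congr rfl fun t _ => h1 t]
    simp [mul_comm]
  rw [h2]
  simp only [Finset.card_filter]
  rw [Finset.sum_comm]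
  simp only [← Finset.card_filter]
  refine (Finset.sum_le_sum fun G _ => count_t he s G).trans ?_
  simp

open Classical in
lemma count_not {n : ℕ} (hn : 3 ≤ n) :
    (Finset.univ.filter fun G : SimpleGraph (Fin n) => ¬ Theta 3 G 3).card * 8 ^ n
      ≤ n ^ 3 * 8 * (Fintype.card (SimpleGraph (Fin n)) * (512 * 7 ^ n)) := by
  let I : Finset ((Fin 3 → Fin n) × (Fin 3 → Bool)) :=
    Finset.univ.filter fun p => Function.Injective p.1
  have h1 : (Finset.univ.filter fun G : SimpleGraph (Fin n) => ¬ Theta 3 G 3) ⊆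
      I.biUnion fun p => Finset.univ.filter fun G : SimpleGraph (Fin n) => Bad p.1 p.2 G := by
    intro G hG
    rw [Finset.mem_filter] at hG
    have h : ¬ Ext G := fun h => hG.2 (theta_of_ext hn G h)
    unfold Ext at h
    simp only [not_forall, not_exists, not_and] at h
    obtain ⟨e, he, s, hs⟩ := h
    rw [Finset.mem_biUnion]
    refine ⟨(e, s), by simpa [I] using he, ?_⟩
    rw [Finset.mem_filter]
    refine ⟨Finset.mem_univ _, fun w hw hh => ?_⟩
    obtain ⟨i, hi⟩ := hs w hw
    exact hi (hh i)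
  have h2 := (Finset.card_le_card h1).trans Finset.card_biUnion_le
  refine (Nat.mul_le_mul_right _ h2).trans ?_
  rw [Finset.sum_mul]
  refine (Finset.sum_le_sum fun p hp => count_bad (Finset.mem_filter.1 hp).2 p.2).trans ?_
  rw [Finset.sum_const, smul_eq_mul]
  refine Nat.mul_le_mul_right _ ((Finset.card_le_univ _).trans ?_)
  simp

open Classical in
noncomputable def bad (n : ℕ) : ℝ :=
  ((Finset.univ.filter fun G : SimpleGraph (Fin n) => ¬ Theta 3 G 3).card : ℝ) /
    Fintype.card (SimpleGraph (Fin n))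

lemma bad_tendsto : Tendsto bad atTop (𝓝 0) := by
  classical
  have h := (tendsto_pow_const_mul_const_pow_of_abs_lt_one 3 (r := 7 / 8)
    (by rw [abs_lt]; constructor <;> norm_num)).const_mul 4096
  rw [mul_zero] at h
  refine squeeze_zero' (Eventually.of_forall fun n => by unfold bad; positivity) ?_ h
  filter_upwards [eventually_ge_atTop 3] with n hn
  have h1 := count_not hn
  have hpos : (0 : ℝ) < Fintype.card (SimpleGraph (Fin n)) := by
    exact_mod_cast Fintype.card_pos
  unfold bad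
  rw [div_le_iff₀ hpos, div_pow]
  have h8 : (0 : ℝ) < 8 ^ n := by positivity
  have h2 : ((Finset.univ.filter fun G : SimpleGraph (Fin n) => ¬ Theta 3 G 3).card : ℝ) * 8 ^ n
      ≤ n ^ 3 * 8 * (Fintype.card (SimpleGraph (Fin n)) * (512 * 7 ^ n)) := by
    exact_mod_cast h1
  rw [← le_div_iff₀ h8] at h2
  refine h2.trans (le_of_eq ?_)
  ring

lemma prob3 (n : ℕ) : prob 3 n = 1 - bad n := by
  classical
  have hpos : (0 : ℝ) < Fintype.card (SimpleGraph (Fin n)) := by
    exact_mod_cast Fintype.card_pos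
  unfold prob bad
  rw [Nat.card_eq_fintype_card, Set.ncard_eq_toFinset_card', Set.toFinset_ofPred,
    eq_sub_iff_add_eq, ← add_div, div_eq_one_iff_eq hpos.ne']
  exact_mod_cast Finset.card_filter_add_card_filter_not _

lemma prob4 (n : ℕ) : prob 4 n ≤ bad n := by
  classical
  unfold prob bad
  rw [Nat.card_eq_fintype_card, Set.ncard_eq_toFinset_card', Set.toFinset_ofPred]
  gcongr
  intro h4 h3
  exact absurd (h3.unique h4) (by decide)

theorem result : Tendsto (prob 3) atTop (𝓝 1) ∧ Tendsto (prob 4) atTop (𝓝 0) ∧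
    ¬ Tendsto (prob 4) atTop (𝓝 1) := by
  have h4 : Tendsto (prob 4) atTop (𝓝 0) :=
    squeeze_zero (fun n => by unfold prob; positivity) prob4 bad_tendsto
  refine ⟨?_, h4, fun h => zero_ne_one (tendsto_nhds_unique h4 h)⟩
  have := bad_tendsto.const_sub 1
  rw [sub_zero] at this
  exact this.congr fun n => (prob3 n).symm

end Pool.Agent.Results.MP_5f8894_co.AlmostAll
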